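import Pool.Agent.helper17.CH.SpecV

set_option autoImplicit false

namespace Pool.Agent.CH

open Finset
open Pool.Agent.helper74.TG (ee gb)

theorem LOC_sum_Icc (f : ℕ → ℝ) (k : ℕ) : ∑ j ∈ Icc 1 k, f j = ∑ i ∈ range k, f (i + 1) := by
  induction k with
  | zero => simp
  | succ k ih => rw [Finset.sum_Icc_succ_top (by omega), ih, Finset.sum_range_succ]

/-- Taylor expansion of `log (1 + w)`. -/
theorem LOC_taylor (k : ℕ) (w : ℝ) (h0 : 0 ≤ w) (h1 : w ≤ 1 / 2) :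
    |Real.log (1 + w) - ∑ j ∈ Icc 1 k, -((-w) ^ j / j)| ≤ 2 * w ^ (k + 1) := by
  have hw : |-w| < 1 := by rw [abs_neg, abs_of_nonneg h0]; linarith
  have h := Real.abs_log_sub_add_sum_range_le hw k
  rw [abs_neg, abs_of_nonneg h0, sub_neg_eq_add] at h
  have e1 : Real.log (1 + w) - ∑ j ∈ Icc 1 k, -((-w) ^ j / (j : ℝ)) =
      (∑ i ∈ range k, (-w) ^ (i + 1) / ((i : ℝ) + 1)) + Real.log (1 + w) := by
    rw [LOC_sum_Icc (fun j => -((-w) ^ j / (j : ℝ))), Finset.sum_neg_distrib]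
    push_cast
    ring
  rw [e1]
  refine le_trans h ?_
  rw [div_le_iff₀ (by linarith)]
  have : 0 ≤ w ^ (k + 1) := pow_nonneg h0 _
  nlinarith

theorem LOC_exp (A B : ℝ) : ‖Complex.exp ((A : ℂ) * Complex.I) - Complex.exp ((B : ℂ) * Complex.I)‖ ≤
    |A - B| := by
  have e : Complex.exp ((A : ℂ) * Complex.I) - Complex.exp ((B : ℂ) * Complex.I) =
      Complex.exp ((B : ℂ) * Complex.I) * (Complex.exp (Complex.I * ((A - B : ℝ) : ℂ)) - 1) := by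
    rw [mul_sub, ← Complex.exp_add, mul_one]
    congr 2
    push_cast
    ring
  rw [e, norm_mul, Complex.norm_exp_ofReal_mul_I, one_mul]
  exact Real.norm_exp_I_mul_ofReal_sub_one_le

/-- comparison of one term -/
theorem LOC_term (k : ℕ) (t x z : ℝ) (hx : 0 < x) (hz : 0 ≤ z) (hz1 : z / x ≤ 1 / 2) :
    ‖nit t (x + z) - nit t x * ee (∑ j ∈ Icc 1 k, (-(-1) ^ j * t / (2 * Real.pi * j * x ^ j)) * z ^ j)‖
      ≤ |t| * (2 * (z / x) ^ (k + 1)) := by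
  have hw0 : 0 ≤ z / x := div_nonneg hz hx.le
  have hT := LOC_taylor k (z / x) hw0 hz1
  have e1 : nit t x * ee (∑ j ∈ Icc 1 k, (-(-1) ^ j * t / (2 * Real.pi * j * x ^ j)) * z ^ j) =
      Complex.exp (((t * (Real.log x + ∑ j ∈ Icc 1 k, -((-(z / x)) ^ j / j)) : ℝ) : ℂ) * Complex.I) := by
    rw [nit, Pool.Agent.helper74.TG.ee, ← Complex.exp_add]
    congr 1
    have e2 : 2 * Real.pi * (∑ j ∈ Icc 1 k, (-(-1) ^ j * t / (2 * Real.pi * j * x ^ j)) * z ^ j) =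
        t * ∑ j ∈ Icc 1 k, -((-(z / x)) ^ j / (j : ℝ)) := by
      rw [Finset.mul_sum, Finset.mul_sum]
      refine Finset.sum_congr rfl fun j hj => ?_
      have hj0 : (j : ℝ) ≠ 0 := by
        have := (Finset.mem_Icc.1 hj).1
        positivity
      have hx0 : x ^ j ≠ 0 := (pow_pos hx j).ne'
      rw [neg_pow (z / x), div_pow]
      field_simp
    have e3 : ((2 * Real.pi * (∑ j ∈ Icc 1 k, (-(-1) ^ j * t / (2 * Real.pi * j * x ^ j)) * z ^ j) : ℝ) : ℂ) =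
        ((t * ∑ j ∈ Icc 1 k, -((-(z / x)) ^ j / (j : ℝ)) : ℝ) : ℂ) := by rw [e2]
    rw [Complex.ofReal_mul, Complex.ofReal_mul] at e3
    rw [mul_add, Complex.ofReal_add, add_mul, ← e3]
    push_cast
    ring
  rw [e1, nit]
  refine le_trans (LOC_exp _ _) ?_
  have e4 : Real.log (x + z) = Real.log x + Real.log (1 + z / x) := by
    rw [← Real.log_mul hx.ne' (by positivity)]
    congr 1
    field_simp
  rw [e4, ← mul_sub, abs_mul]
  refine mul_le_mul_of_nonneg_left ?_ (abs_nonneg t)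
  rwa [add_sub_add_left_eq_sub]

theorem LOC_seven (k : ℕ) (hk : 5 ≤ k) : 500 * (k : ℝ) ^ 2 ≤ 7 ^ k := by
  induction k, hk using Nat.le_induction with
  | base => norm_num
  | succ k hk ih =>
    have h5 : (5 : ℝ) ≤ k := by exact_mod_cast hk
    have e : (7 : ℝ) ^ (k + 1) = 7 ^ k * 7 := pow_succ _ _
    rw [e]
    push_cast
    nlinarith

theorem LOC_delta (k r : ℕ) (hk : 5 ≤ k) (hr : 2 * k ^ 2 ≤ r) :
    (k : ℝ) ^ 2 / 2 * (1 - 1 / (k : ℝ)) ^ r ≤ 1 / 1000 := by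
  have h5 : (5 : ℝ) ≤ k := by exact_mod_cast hk
  have hk0 : (0 : ℝ) < k := by linarith
  have h1 : 1 - 1 / (k : ℝ) ≤ Real.exp (-(1 / (k : ℝ))) := by
    have := Real.add_one_le_exp (-(1 / (k : ℝ)))
    linarith
  have h0 : 0 ≤ 1 - 1 / (k : ℝ) := by
    have : 1 / (k : ℝ) ≤ 1 := by rw [div_le_one hk0]; linarith
    linarith
  have h2 : (1 - 1 / (k : ℝ)) ^ r ≤ Real.exp (-(2 * k)) := by
    calc (1 - 1 / (k : ℝ)) ^ r ≤ (Real.exp (-(1 / (k : ℝ)))) ^ r := pow_le_pow_left₀ h0 h1 _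
      _ = Real.exp (-((r : ℝ) / k)) := by
          rw [← Real.exp_nat_mul]
          congr 1
          ring
      _ ≤ Real.exp (-(2 * k)) := by
          apply Real.exp_le_exp.2
          have hr' : 2 * (k : ℝ) ^ 2 ≤ r := by exact_mod_cast hr
          have : 2 * (k : ℝ) ≤ r / k := by
            rw [le_div_iff₀ hk0]
            nlinarith
          linarith
  have h3 : (7 : ℝ) ^ k ≤ Real.exp (2 * k) := by
    have e : Real.exp (2 * k) = (Real.exp 2) ^ k := by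
      rw [← Real.exp_nat_mul]
      congr 1
      ring
    rw [e]
    apply pow_le_pow_left₀ (by norm_num)
    have h := Real.exp_one_gt_d9
    have e2 : Real.exp 2 = Real.exp 1 * Real.exp 1 := by
      rw [← Real.exp_add]
      norm_num
    rw [e2]
    nlinarith
  have h4 := LOC_seven k hk
  have h5' : (k : ℝ) ^ 2 * Real.exp (-(2 * k)) ≤ 1 / 500 := by
    rw [Real.exp_neg, ← div_eq_mul_inv, div_le_iff₀ (Real.exp_pos _)]
    linarith
  calc (k : ℝ) ^ 2 / 2 * (1 - 1 / (k : ℝ)) ^ r ≤ (k : ℝ) ^ 2 / 2 * Real.exp (-(2 * k)) :=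
        mul_le_mul_of_nonneg_left h2 (by positivity)
    _ ≤ 1 / 1000 := by linarith

theorem LOC_prod (a y : ℝ) (k : ℕ) : ∏ j ∈ Icc 1 k, (a * y ^ j) ^ 2 = a ^ (2 * k) * y ^ (k * (k + 1)) := by
  induction k with
  | zero => simp
  | succ k ih =>
    rw [Finset.prod_Icc_succ_top (by omega), ih]
    ring

theorem LOC_gb_nonneg (X β : ℝ) (hX : 0 ≤ X) : 0 ≤ gb X β := by
  unfold Pool.Agent.helper74.TG.gb
  split_ifs
  · exact hX
  · positivity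

theorem LOC_two_pow (n : ℕ) : (2 : ℝ) ^ n ≤ Real.exp n := by
  have h := Real.add_one_le_exp (1 : ℝ)
  have e : Real.exp (n : ℝ) = (Real.exp 1) ^ n := by
    rw [← Real.exp_nat_mul, mul_one]
  rw [e]
  exact pow_le_pow_left₀ (by norm_num) (by linarith) _

/-- the product over `j` -/
theorem LOC_P (hTJ : TJ_stmt) (s k Y j₀ : ℕ) (α : ℕ → ℝ) (hs : 1 ≤ s) (hY : 1 ≤ Y) (hj : 1 ≤ j₀)
    (hjk : j₀ ≤ k) (hα : α j₀ ≠ 0) (hα2 : |α j₀| * (s * Y ^ j₀ : ℕ) ≤ 1 / 2) :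
    ∏ j ∈ Icc 1 k, ∑ μ ∈ Icc (-((s * Y ^ j : ℕ) : ℤ)) ((s * Y ^ j : ℕ) : ℤ),
        gb ((2 * s * Y ^ j + 1 : ℕ) : ℝ) (α j * μ) ≤
      (3 * (s : ℝ)) ^ (2 * k) * (Y : ℝ) ^ (k * (k + 1)) *
        ((2 * (s * (Y : ℝ) ^ j₀) + 1 + 1 / |α j₀| * (1 + Real.log (s * (Y : ℝ) ^ j₀))) /
          (3 * s * (Y : ℝ) ^ j₀) ^ 2) := by
  have hs' : (1 : ℝ) ≤ s := by exact_mod_cast hs
  have hY' : (1 : ℝ) ≤ Y := by exact_mod_cast hY
  have hM : ∀ j, (1 : ℝ) ≤ s * (Y : ℝ) ^ j := fun j => one_le_mul_of_one_le_of_one_le hs'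
    (one_le_pow₀ hY')
  have hmem : j₀ ∈ Icc 1 k := Finset.mem_Icc.2 ⟨hj, hjk⟩
  have hn : ∀ j, 0 ≤ ∑ μ ∈ Icc (-((s * Y ^ j : ℕ) : ℤ)) ((s * Y ^ j : ℕ) : ℤ),
      gb ((2 * s * Y ^ j + 1 : ℕ) : ℝ) (α j * μ) := fun j =>
    Finset.sum_nonneg fun μ _ => LOC_gb_nonneg _ _ (Nat.cast_nonneg _)
  have h1 : ∑ μ ∈ Icc (-((s * Y ^ j₀ : ℕ) : ℤ)) ((s * Y ^ j₀ : ℕ) : ℤ),
      gb ((2 * s * Y ^ j₀ + 1 : ℕ) : ℝ) (α j₀ * μ) ≤
      2 * (s * (Y : ℝ) ^ j₀) + 1 + 1 / |α j₀| * (1 + Real.log (s * (Y : ℝ) ^ j₀)) := by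
    have h := hTJ.1 (s * Y ^ j₀) (α j₀) (by exact_mod_cast hM j₀) hα hα2
    rw [← mul_assoc 2 s] at h
    push_cast at h ⊢
    exact h
  have h2 : ∀ j, ∑ μ ∈ Icc (-((s * Y ^ j : ℕ) : ℤ)) ((s * Y ^ j : ℕ) : ℤ),
      gb ((2 * s * Y ^ j + 1 : ℕ) : ℝ) (α j * μ) ≤ (3 * s * (Y : ℝ) ^ j) ^ 2 := by
    intro j
    have h := hTJ.2 (s * Y ^ j) (α j)
    rw [← mul_assoc 2 s] at h
    refine le_trans h ?_
    push_cast
    have := hM j
    apply pow_le_pow_left₀ (by positivity)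
    nlinarith
  rw [← Finset.mul_prod_erase _ _ hmem]
  have h3 := LOC_prod (3 * (s : ℝ)) (Y : ℝ) k
  rw [← Finset.mul_prod_erase _ _ hmem] at h3
  rw [← h3]
  have hpos : 0 < (3 * s * (Y : ℝ) ^ j₀) ^ 2 := by
    have := hM j₀
    positivity
  calc _ ≤ (2 * (s * (Y : ℝ) ^ j₀) + 1 + 1 / |α j₀| * (1 + Real.log (s * (Y : ℝ) ^ j₀))) *
        ∏ j ∈ (Icc 1 k).erase j₀, (3 * s * (Y : ℝ) ^ j) ^ 2 := by
        refine mul_le_mul h1 (Finset.prod_le_prod (fun j _ => hn j) fun j _ => h2 j)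
          (Finset.prod_nonneg fun j _ => hn j) (le_trans (hn j₀) h1)
    _ = _ := by
        field_simp

theorem LOC_brk (l : ℕ) (hl : 1 ≤ l) (L ρ y δ : ℝ) (hL : 10 ^ 16 * (l : ℝ) ^ 9 < L) (hy : 1 ≤ y)
    (hy2 : y ≤ Real.exp (2 / 5 * L)) (hδ0 : 0 ≤ δ) (hδ : δ ≤ 1 / 500) (hρ0 : 0 ≤ ρ)
    (hρ : ρ ≤ 2 * Real.exp (-(2 / 5 * L)) + (1 + 250 * (l : ℝ) ^ 3 + 5 * l * L) * (5 * l) *
      16 ^ (5 * l) * Real.exp (-(3 / 50 * L))) :
    (2 : ℝ) ^ (100 * (5 * l) ^ 5 * (2 * (2 * (5 * l) ^ 2)) ^ 2) *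
      2 ^ (100 * (5 * l) ^ 5 * (2 * (5 * l) ^ 2) ^ 2) *
      (3 * (250 * (l : ℝ) ^ 3)) ^ (2 * (5 * l)) * y ^ δ * ρ ≤ Real.exp (-(3 / 100 * L)) := by
  have hl' : (1 : ℝ) ≤ l := by exact_mod_cast hl
  have hq3 : (l : ℝ) ^ 3 ≤ (l : ℝ) ^ 9 := pow_le_pow_right₀ hl' (by norm_num)
  have hq4 : (l : ℝ) ^ 4 ≤ (l : ℝ) ^ 9 := pow_le_pow_right₀ hl' (by norm_num)
  have hq1 : (l : ℝ) ≤ (l : ℝ) ^ 9 := by
    have := pow_le_pow_right₀ hl' (show 1 ≤ 9 by norm_num)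
    simpa using this
  have hq0 : (1 : ℝ) ≤ (l : ℝ) ^ 9 := one_le_pow₀ hl'
  have hL0 : (10 : ℝ) ^ 16 < L := by nlinarith
  -- powers of two
  have a1 : (2 : ℝ) ^ (100 * (5 * l) ^ 5 * (2 * (2 * (5 * l) ^ 2)) ^ 2) ≤ Real.exp (1 / 2000 * L) := by
    refine le_trans (LOC_two_pow _) (Real.exp_le_exp.2 ?_)
    push_cast
    nlinarith
  have a2 : (2 : ℝ) ^ (100 * (5 * l) ^ 5 * (2 * (5 * l) ^ 2) ^ 2) ≤ Real.exp (1 / 2000 * L) := by
    refine le_trans (LOC_two_pow _) (Real.exp_le_exp.2 ?_)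
    push_cast
    nlinarith
  have a3 : (3 * (250 * (l : ℝ) ^ 3)) ^ (2 * (5 * l)) ≤ Real.exp (1 / 1000 * L) := by
    have h1 : 3 * (250 * (l : ℝ) ^ 3) ≤ Real.exp (3 * (250 * (l : ℝ) ^ 3)) := by
      have := Real.add_one_le_exp (3 * (250 * (l : ℝ) ^ 3))
      linarith
    refine le_trans (pow_le_pow_left₀ (by positivity) h1 _) ?_
    rw [← Real.exp_nat_mul]
    apply Real.exp_le_exp.2
    push_cast
    nlinarith
  have a4 : y ^ δ ≤ Real.exp (1 / 1000 * L) := by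
    calc y ^ δ ≤ (Real.exp (2 / 5 * L)) ^ δ := Real.rpow_le_rpow (by linarith) hy2 hδ0
      _ = Real.exp (2 / 5 * L * δ) := by rw [← Real.exp_mul]
      _ ≤ Real.exp (1 / 1000 * L) := by
          apply Real.exp_le_exp.2
          nlinarith
  have a5 : (16 : ℝ) ^ (5 * l) ≤ Real.exp (1 / 1000 * L) := by
    have e : (16 : ℝ) ^ (5 * l) = 2 ^ (4 * (5 * l)) := by
      rw [pow_mul 2 4 (5 * l)]
      congr 1
      norm_num
    rw [e]
    refine le_trans (LOC_two_pow _) (Real.exp_le_exp.2 ?_)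
    push_cast
    nlinarith
  have a6 : (1 + 250 * (l : ℝ) ^ 3 + 5 * l * L) * (5 * l) ≤ Real.exp (1 / 1000 * L) *
      Real.exp (1 / 100 * L) := by
    have h1 : L ≤ 100 * Real.exp (1 / 100 * L) := by
      have := Real.add_one_le_exp (1 / 100 * L)
      linarith
    have h2 : 128000 * (l : ℝ) ^ 4 ≤ Real.exp (1 / 1000 * L) := by
      have := Real.add_one_le_exp (1 / 1000 * L)
      nlinarith
    have h3 : (1 + 250 * (l : ℝ) ^ 3 + 5 * l * L) ≤ 256 * (l : ℝ) ^ 3 * L := by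
      have hl3 : (l : ℝ) ≤ (l : ℝ) ^ 3 := by
        have := pow_le_pow_right₀ hl' (show 1 ≤ 3 by norm_num)
        simpa using this
      have hl31 : (1 : ℝ) ≤ (l : ℝ) ^ 3 := one_le_pow₀ hl'
      have hL1 : (10 : ℝ) ^ 3 ≤ L := by linarith
      have e1 : (l : ℝ) * L ≤ (l : ℝ) ^ 3 * L := mul_le_mul_of_nonneg_right hl3 (by linarith)
      have e2 : (l : ℝ) ^ 3 * 10 ^ 3 ≤ (l : ℝ) ^ 3 * L := mul_le_mul_of_nonneg_left hL1 (by positivity)
      nlinarith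
    calc (1 + 250 * (l : ℝ) ^ 3 + 5 * l * L) * (5 * l) ≤ 256 * (l : ℝ) ^ 3 * L * (5 * l) :=
          mul_le_mul_of_nonneg_right h3 (by positivity)
      _ = 1280 * (l : ℝ) ^ 4 * L := by ring
      _ ≤ 1280 * (l : ℝ) ^ 4 * (100 * Real.exp (1 / 100 * L)) :=
          mul_le_mul_of_nonneg_left h1 (by positivity)
      _ = 128000 * (l : ℝ) ^ 4 * Real.exp (1 / 100 * L) := by ring
      _ ≤ _ := mul_le_mul_of_nonneg_right h2 (Real.exp_pos _).le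
  have a7 : ρ ≤ 3 * Real.exp (-(48 / 1000 * L)) := by
    refine le_trans hρ ?_
    have e1 : Real.exp (-(2 / 5 * L)) ≤ Real.exp (-(48 / 1000 * L)) :=
      Real.exp_le_exp.2 (by linarith)
    have e2 : (1 + 250 * (l : ℝ) ^ 3 + 5 * l * L) * (5 * l) * 16 ^ (5 * l) *
        Real.exp (-(3 / 50 * L)) ≤ Real.exp (-(48 / 1000 * L)) := by
      calc (1 + 250 * (l : ℝ) ^ 3 + 5 * l * L) * (5 * l) * 16 ^ (5 * l) * Real.exp (-(3 / 50 * L))
          ≤ Real.exp (1 / 1000 * L) * Real.exp (1 / 100 * L) * Real.exp (1 / 1000 * L) *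
            Real.exp (-(3 / 50 * L)) := by
            refine mul_le_mul_of_nonneg_right ?_ (Real.exp_pos _).le
            exact mul_le_mul a6 a5 (by positivity) (by positivity)
        _ = Real.exp (-(48 / 1000 * L)) := by
            rw [← Real.exp_add, ← Real.exp_add, ← Real.exp_add]
            congr 1
            ring
    linarith
  have a8 : (3 : ℝ) ≤ Real.exp (1 / 100 * L) := by
    have := Real.add_one_le_exp (1 / 100 * L)
    linarith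
  calc _ ≤ Real.exp (1 / 2000 * L) * Real.exp (1 / 2000 * L) * Real.exp (1 / 1000 * L) *
        Real.exp (1 / 1000 * L) * (Real.exp (1 / 100 * L) * Real.exp (-(48 / 1000 * L))) := by
        refine mul_le_mul (mul_le_mul (mul_le_mul (mul_le_mul a1 a2 (by positivity)
          (Real.exp_pos _).le) a3 (by positivity) (by positivity)) a4 (by positivity)
          (by positivity)) ?_ hρ0 (by positivity)
        exact le_trans a7 (mul_le_mul_of_nonneg_right a8 (Real.exp_pos _).le)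
    _ = Real.exp (-(35 / 1000 * L)) := by
        simp only [← Real.exp_add]
        congr 1
        ring
    _ ≤ _ := Real.exp_le_exp.2 (by linarith)

theorem LOC_rho (j₀ l : ℕ) (L lam s y x T : ℝ) (hl : 1 ≤ l) (hs : s = 250 * (l : ℝ) ^ 3)
    (hL0 : 10 ≤ L) (hy1 : 1 ≤ y) (hy : y ≤ Real.exp (2 / 5 * L)) (hy2 : Real.exp (2 / 5 * L) / 2 ≤ y)
    (hT : T = Real.exp (lam * L)) (hx0 : 0 < x) (hx : x ≤ 4 * Real.exp L) (hj : 1 ≤ j₀)
    (hjk : j₀ ≤ 5 * l) (hj2 : (j₀ : ℝ) ≤ 5 * lam - 3 / 10) :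
    (2 * (s * y ^ j₀) + 1 + 1 / (T / (2 * Real.pi * j₀ * x ^ j₀)) * (1 + Real.log (s * y ^ j₀))) /
      (3 * s * y ^ j₀) ^ 2 ≤ 2 * Real.exp (-(2 / 5 * L)) +
        (1 + 250 * (l : ℝ) ^ 3 + 5 * l * L) * (5 * l) * 16 ^ (5 * l) * Real.exp (-(3 / 50 * L)) := by
  have hl' : (1 : ℝ) ≤ l := by exact_mod_cast hl
  have hl3 : (1 : ℝ) ≤ (l : ℝ) ^ 3 := one_le_pow₀ hl'
  have hs1 : 1 ≤ s := by rw [hs]; linarith
  have hj' : (1 : ℝ) ≤ j₀ := by exact_mod_cast hj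
  have hjk' : (j₀ : ℝ) ≤ 5 * l := by exact_mod_cast hjk
  have hT0 : 0 < T := by rw [hT]; exact Real.exp_pos _
  obtain ⟨Q, hQ⟩ : ∃ Q, Q = y ^ j₀ := ⟨_, rfl⟩
  have hQy : y ≤ Q := by
    rw [hQ]
    calc y = y ^ 1 := (pow_one y).symm
      _ ≤ y ^ j₀ := pow_le_pow_right₀ hy1 hj
  have hQ1 : 1 ≤ Q := le_trans hy1 hQy
  have hM1 : Q ≤ s * Q := by nlinarith
  rw [← hQ, add_div]
  have p1 : (2 * (s * Q) + 1) / (3 * s * Q) ^ 2 ≤ 2 * Real.exp (-(2 / 5 * L)) := by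
    have h1 : (2 * (s * Q) + 1) / (3 * s * Q) ^ 2 ≤ 1 / y := by
      rw [div_le_div_iff₀ (by positivity) (by positivity)]
      have h2 : 1 ≤ s * Q := le_trans hQ1 hM1
      have h3 : y ≤ s * Q := le_trans hQy hM1
      nlinarith
    have h4 : 1 / y ≤ 2 * Real.exp (-(2 / 5 * L)) := by
      rw [Real.exp_neg, div_le_iff₀ (by linarith)]
      have he := Real.exp_pos (2 / 5 * L)
      have : 2 * (Real.exp (2 / 5 * L))⁻¹ * y = y / (Real.exp (2 / 5 * L) / 2) := by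
        field_simp
      rw [this, le_div_iff₀ (by positivity), one_mul]
      exact hy2
    exact le_trans h1 h4
  have p2 : x ^ j₀ ≤ T * Q ^ 2 * (16 ^ j₀ * Real.exp (-(3 / 50 * L))) := by
    have h1 : x ^ j₀ ≤ 4 ^ j₀ * Real.exp (j₀ * L) := by
      calc x ^ j₀ ≤ (4 * Real.exp L) ^ j₀ := pow_le_pow_left₀ hx0.le hx _
        _ = 4 ^ j₀ * Real.exp (j₀ * L) := by rw [mul_pow, ← Real.exp_nat_mul]
    have h2 : Real.exp (j₀ * (4 / 5 * L)) / 4 ^ j₀ ≤ Q ^ 2 := by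
      have h3 : (Real.exp (2 / 5 * L) / 2) ^ j₀ ≤ Q := by
        rw [hQ]
        exact pow_le_pow_left₀ (by positivity) hy2 _
      have h4 : ((Real.exp (2 / 5 * L) / 2) ^ j₀) ^ 2 = Real.exp (j₀ * (4 / 5 * L)) / 4 ^ j₀ := by
        have a : (Real.exp (2 / 5 * L) / 2) ^ 2 = Real.exp (4 / 5 * L) / 4 := by
          have b : Real.exp (4 / 5 * L) = Real.exp (2 / 5 * L) * Real.exp (2 / 5 * L) := by
            rw [← Real.exp_add]
            congr 1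
            ring
          rw [b]
          ring
        rw [← pow_mul, mul_comm j₀ 2, pow_mul, a, div_pow, ← Real.exp_nat_mul]
      rw [← h4]
      exact pow_le_pow_left₀ (by positivity) h3 2
    calc x ^ j₀ ≤ 4 ^ j₀ * Real.exp (j₀ * L) := h1
      _ ≤ 4 ^ j₀ * Real.exp (lam * L + j₀ * (4 / 5 * L) + -(3 / 50 * L)) := by
          refine mul_le_mul_of_nonneg_left (Real.exp_le_exp.2 ?_) (by positivity)
          nlinarith
      _ = T * (Real.exp (j₀ * (4 / 5 * L)) / 4 ^ j₀) * (16 ^ j₀ * Real.exp (-(3 / 50 * L))) := by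
          rw [Real.exp_add, Real.exp_add, hT]
          have : (16 : ℝ) ^ j₀ = 4 ^ j₀ * 4 ^ j₀ := by rw [← mul_pow]; norm_num
          rw [this]
          field_simp
      _ ≤ T * Q ^ 2 * (16 ^ j₀ * Real.exp (-(3 / 50 * L))) := by
          refine mul_le_mul_of_nonneg_right ?_ (by positivity)
          exact mul_le_mul_of_nonneg_left h2 hT0.le
  have p3 : 0 ≤ 1 + Real.log (s * Q) := by
    have := Real.log_nonneg (le_trans hQ1 hM1)
    linarith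
  have p4 : 1 + Real.log (s * Q) ≤ 1 + 250 * (l : ℝ) ^ 3 + 5 * l * L := by
    rw [Real.log_mul (by positivity) (by positivity), hQ, Real.log_pow]
    have h1 : Real.log s ≤ s := by
      have := Real.log_le_sub_one_of_pos (show 0 < s by linarith)
      linarith
    have h2 : Real.log y ≤ 2 / 5 * L := by
      rw [Real.log_le_iff_le_exp (by linarith)]
      exact hy
    have h3 : (j₀ : ℝ) * Real.log y ≤ 5 * l * L := by
      have h0 : 0 ≤ Real.log y := Real.log_nonneg hy1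
      have : Real.log y ≤ L := by linarith
      exact mul_le_mul hjk' this h0 (by positivity)
    rw [← hs]
    linarith
  have p5 : 1 / (T / (2 * Real.pi * j₀ * x ^ j₀)) * (1 + Real.log (s * Q)) / (3 * s * Q) ^ 2 ≤
      (1 + 250 * (l : ℝ) ^ 3 + 5 * l * L) * (5 * l) * 16 ^ (5 * l) * Real.exp (-(3 / 50 * L)) := by
    have e1 : 1 / (T / (2 * Real.pi * j₀ * x ^ j₀)) * (1 + Real.log (s * Q)) / (3 * s * Q) ^ 2 =
        (1 + Real.log (s * Q)) * j₀ * (x ^ j₀ / (T * Q ^ 2)) * (2 * Real.pi / 9 / s ^ 2) := by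
      field_simp
      ring
    have e2 : x ^ j₀ / (T * Q ^ 2) ≤ 16 ^ (5 * l) * Real.exp (-(3 / 50 * L)) := by
      rw [div_le_iff₀ (by positivity)]
      calc x ^ j₀ ≤ T * Q ^ 2 * (16 ^ j₀ * Real.exp (-(3 / 50 * L))) := p2
        _ ≤ T * Q ^ 2 * (16 ^ (5 * l) * Real.exp (-(3 / 50 * L))) := by
            refine mul_le_mul_of_nonneg_left ?_ (by positivity)
            refine mul_le_mul_of_nonneg_right ?_ (Real.exp_pos _).le
            exact pow_le_pow_right₀ (by norm_num) hjk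
        _ = _ := by ring
    have e3 : 2 * Real.pi / 9 / s ^ 2 ≤ 1 := by
      rw [div_le_one (by positivity)]
      have := Real.pi_le_four
      nlinarith
    rw [e1]
    calc (1 + Real.log (s * Q)) * j₀ * (x ^ j₀ / (T * Q ^ 2)) * (2 * Real.pi / 9 / s ^ 2)
        ≤ (1 + 250 * (l : ℝ) ^ 3 + 5 * l * L) * (5 * l) *
          (16 ^ (5 * l) * Real.exp (-(3 / 50 * L))) * 1 := by
          refine mul_le_mul (mul_le_mul (mul_le_mul p4 hjk' (by positivity) (by positivity)) e2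
            (by positivity) (by positivity)) e3 (by positivity) (by positivity)
      _ = _ := by ring
  exact add_le_add p1 p5

/-- the bound for the polynomial phase -/
theorem LOC_main (hVMV : VMV_stmt) (hDH : DH_stmt) (hTJ : TJ_stmt) (l N Y : ℕ) (t x : ℝ)
    (hl : 1 ≤ l) (hN : 1 ≤ N) (ht1 : √(N : ℝ) ≤ |t|) (ht2 : |t| ≤ (N : ℝ) ^ l) (hx1 : (N : ℝ) ≤ x)
    (hx2 : x ≤ 4 * N) (hL : 10 ^ 16 * (l : ℝ) ^ 9 < Real.log N)
    (hY : Y = ⌊(N : ℝ) ^ (2 / 5 : ℝ)⌋₊) :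
    ‖∑ u ∈ Ioc 0 Y, ∑ v ∈ Ioc 0 Y,
      ee (∑ j ∈ Icc 1 (5 * l), (-(-1) ^ j * t / (2 * Real.pi * j * x ^ j)) * ((u : ℝ) * v) ^ j)‖ ≤
      (Y : ℝ) ^ 2 * Real.exp (-(3 / 100 * Real.log N / (250000 * (l : ℝ) ^ 6))) := by
  have hl' : (1 : ℝ) ≤ l := by exact_mod_cast hl
  have hq0 : (1 : ℝ) ≤ (l : ℝ) ^ 9 := one_le_pow₀ hl'
  have hq3 : (l : ℝ) ^ 3 ≤ (l : ℝ) ^ 9 := pow_le_pow_right₀ hl' (by norm_num)
  have hN0 : (0 : ℝ) < N := by exact_mod_cast hN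
  obtain ⟨L, hLd⟩ : ∃ L, L = Real.log N := ⟨_, rfl⟩
  rw [← hLd] at hL ⊢
  have hL0 : (10 : ℝ) ^ 16 < L := by nlinarith
  have hNe : (N : ℝ) = Real.exp L := by rw [hLd, Real.exp_log hN0]
  have hNy : (N : ℝ) ^ (2 / 5 : ℝ) = Real.exp (2 / 5 * L) := by
    rw [Real.rpow_def_of_pos hN0, ← hLd]
    congr 1
    ring
  rw [hNy] at hY
  obtain ⟨y, hyd⟩ : ∃ y : ℝ, y = (Y : ℝ) := ⟨_, rfl⟩
  have hy : y ≤ Real.exp (2 / 5 * L) := by
    rw [hyd, hY]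
    exact Nat.floor_le (Real.exp_pos _).le
  have hbig : (2 : ℝ) ≤ Real.exp (2 / 5 * L) := by
    have := Real.add_one_le_exp (2 / 5 * L)
    linarith
  have hy2 : Real.exp (2 / 5 * L) / 2 ≤ y := by
    have := Nat.lt_floor_add_one (Real.exp (2 / 5 * L))
    rw [← hY, ← hyd] at this
    linarith
  have hy1 : 1 ≤ y := by linarith
  have hY1 : 1 ≤ Y := by
    have : (1 : ℝ) ≤ (Y : ℝ) := by rw [← hyd]; exact hy1
    exact_mod_cast this
  have ht0 : 0 < |t| := lt_of_lt_of_le (Real.sqrt_pos.2 hN0) ht1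
  obtain ⟨lam, hlam⟩ : ∃ lam, lam = Real.log |t| / L := ⟨_, rfl⟩
  have hT : |t| = Real.exp (lam * L) := by
    rw [hlam, div_mul_cancel₀ _ (by linarith), Real.exp_log ht0]
  have hlam1 : 1 / 2 ≤ lam := by
    rw [hlam, le_div_iff₀ (by linarith)]
    have := Real.log_le_log (Real.sqrt_pos.2 hN0) ht1
    rw [Real.log_sqrt hN0.le, ← hLd] at this
    linarith
  have hlam2 : lam ≤ l := by
    rw [hlam, div_le_iff₀ (by linarith)]
    have := Real.log_le_log ht0 ht2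
    rwa [Real.log_pow, ← hLd] at this
  obtain ⟨j₀, hj₀⟩ : ∃ j₀, j₀ = ⌈5 * lam / 3 + 3 / 10⌉₊ := ⟨_, rfl⟩
  have hj1 : 5 * lam / 3 + 3 / 10 ≤ (j₀ : ℝ) := by rw [hj₀]; exact Nat.le_ceil _
  have hj2 : (j₀ : ℝ) ≤ 5 * lam - 3 / 10 := by
    have := Nat.ceil_lt_add_one (show 0 ≤ 5 * lam / 3 + 3 / 10 by linarith)
    rw [← hj₀] at this
    linarith
  have hj : 1 ≤ j₀ := by
    have : (0 : ℝ) < (j₀ : ℝ) := by linarith
    exact_mod_cast this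
  have hjk : j₀ ≤ 5 * l := by
    have : (j₀ : ℝ) ≤ ((5 * l : ℕ) : ℝ) := by push_cast; linarith
    exact_mod_cast this
  have hj' : (1 : ℝ) ≤ j₀ := by exact_mod_cast hj
  have hx0 : 0 < x := lt_of_lt_of_le hN0 hx1
  obtain ⟨α, hα⟩ : ∃ α : ℕ → ℝ, α = fun j : ℕ => -(-1) ^ j * t / (2 * Real.pi * j * x ^ j) := ⟨_, rfl⟩
  have hαabs : |α j₀| = |t| / (2 * Real.pi * j₀ * x ^ j₀) := by
    rw [hα]
    simp only [abs_div, abs_mul, abs_neg, abs_pow, abs_one, one_pow, one_mul]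
    rw [abs_of_pos Real.pi_pos, abs_of_pos hx0, Nat.abs_cast]
    norm_num
  have hα0 : α j₀ ≠ 0 := by
    rw [← abs_pos, hαabs]
    positivity
  obtain ⟨s, hs⟩ : ∃ s : ℕ, s = 5 * l * (2 * (5 * l) ^ 2) := ⟨_, rfl⟩
  have hs' : (s : ℝ) = 250 * (l : ℝ) ^ 3 := by
    rw [hs]
    push_cast
    ring
  have hs1 : 1 ≤ s := by
    have : (1 : ℝ) ≤ (s : ℝ) := by
      rw [hs']
      have : (1 : ℝ) ≤ (l : ℝ) ^ 3 := one_le_pow₀ hl'
      linarith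
    exact_mod_cast this
  have hα2 : |α j₀| * (s * Y ^ j₀ : ℕ) ≤ 1 / 2 := by
    push_cast
    rw [hαabs, ← hyd, div_mul_eq_mul_div, div_le_iff₀ (by positivity)]
    have h1 : |t| * y ^ j₀ ≤ Real.exp (j₀ * L) * Real.exp (-(18 / 100 * L)) := by
      calc |t| * y ^ j₀ ≤ Real.exp (lam * L) * (Real.exp (2 / 5 * L)) ^ j₀ := by
            rw [hT]
            exact mul_le_mul_of_nonneg_left (pow_le_pow_left₀ (by linarith) hy _) (Real.exp_pos _).le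
        _ = Real.exp (lam * L + j₀ * (2 / 5 * L)) := by rw [← Real.exp_nat_mul, ← Real.exp_add]
        _ ≤ Real.exp (j₀ * L + -(18 / 100 * L)) := by
            apply Real.exp_le_exp.2
            nlinarith
        _ = _ := Real.exp_add _ _
    have h2 : (s : ℝ) * Real.exp (-(18 / 100 * L)) ≤ 1 / 2 := by
      rw [Real.exp_neg, ← div_eq_mul_inv, div_le_iff₀ (Real.exp_pos _)]
      have := Real.add_one_le_exp (18 / 100 * L)
      rw [hs']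
      linarith
    have h3 : Real.exp (j₀ * L) ≤ x ^ j₀ := by
      rw [Real.exp_nat_mul, ← hNe]
      exact pow_le_pow_left₀ hN0.le hx1 _
    have h4 : x ^ j₀ ≤ 2 * Real.pi * j₀ * x ^ j₀ := by
      have : 1 ≤ 2 * Real.pi * j₀ := by
        have := Real.pi_gt_three
        nlinarith
      have hxp : 0 < x ^ j₀ := pow_pos hx0 _
      nlinarith
    calc |t| * (s * y ^ j₀) = s * (|t| * y ^ j₀) := by ring
      _ ≤ s * (Real.exp (j₀ * L) * Real.exp (-(18 / 100 * L))) :=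
          mul_le_mul_of_nonneg_left h1 (Nat.cast_nonneg _)
      _ = (s * Real.exp (-(18 / 100 * L))) * Real.exp (j₀ * L) := by ring
      _ ≤ 1 / 2 * Real.exp (j₀ * L) := mul_le_mul_of_nonneg_right h2 (Real.exp_pos _).le
      _ ≤ 1 / 2 * (2 * Real.pi * j₀ * x ^ j₀) :=
          mul_le_mul_of_nonneg_left (le_trans h3 h4) (by norm_num)
  obtain ⟨ρ, hρ⟩ : ∃ ρ : ℝ, ρ = (2 * (s * y ^ j₀) + 1 +
    1 / |α j₀| * (1 + Real.log (s * y ^ j₀))) / (3 * s * y ^ j₀) ^ 2 := ⟨_, rfl⟩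
  have hρ1 := LOC_rho j₀ l L lam s y x |t| hl hs' (by linarith) hy1 hy hy2 hT hx0
    (by rw [← hNe]; exact hx2) hj hjk hj2
  rw [← hαabs, ← hρ] at hρ1
  have hρ0 : 0 ≤ ρ := by
    rw [hρ]
    have h1 : 1 ≤ s * y ^ j₀ := one_le_mul_of_one_le_of_one_le (by exact_mod_cast hs1)
      (one_le_pow₀ hy1)
    have := Real.log_nonneg h1
    positivity
  have hPP := LOC_P hTJ s (5 * l) Y j₀ α hs1 hY1 hj hjk hα0 hα2
  rw [← hyd, ← hρ] at hPP
  have hD := hDH s (5 * l) Y α hs1 hY1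
  have hV2 := hVMV (5 * l) (2 * (2 * (5 * l) ^ 2)) Y (by omega) (by
    have : 0 < (5 * l) ^ 2 := by positivity
    omega) hY1
  have hV1 := hVMV (5 * l) (2 * (5 * l) ^ 2) Y (by omega) (by
    have : 0 < (5 * l) ^ 2 := by positivity
    omega) hY1
  have hs2 : 5 * l * (2 * (2 * (5 * l) ^ 2)) = 2 * s := by rw [hs]; ring
  rw [hs2] at hV2
  rw [← hs] at hV1
  have hd1 := LOC_delta (5 * l) (2 * (5 * l) ^ 2) (by omega) le_rfl
  have hd2 := LOC_delta (5 * l) (2 * (2 * (5 * l) ^ 2)) (by omega) (by omega)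
  have hk1 : (0 : ℝ) ≤ 1 - 1 / ((5 * l : ℕ) : ℝ) := by
    have : 1 / ((5 * l : ℕ) : ℝ) ≤ 1 := by
      rw [div_le_one (by positivity)]
      push_cast
      linarith
    linarith
  obtain ⟨δ₁, hδ₁⟩ : ∃ δ₁ : ℝ, δ₁ = ((5 * l : ℕ) : ℝ) ^ 2 / 2 *
    (1 - 1 / ((5 * l : ℕ) : ℝ)) ^ (2 * (5 * l) ^ 2) := ⟨_, rfl⟩
  obtain ⟨δ₂, hδ₂⟩ : ∃ δ₂ : ℝ, δ₂ = ((5 * l : ℕ) : ℝ) ^ 2 / 2 *
    (1 - 1 / ((5 * l : ℕ) : ℝ)) ^ (2 * (2 * (5 * l) ^ 2)) := ⟨_, rfl⟩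
  have hδ₁0 : 0 ≤ δ₁ := by rw [hδ₁]; positivity
  have hδ₂0 : 0 ≤ δ₂ := by rw [hδ₂]; positivity
  rw [← hδ₁] at hd1 hV1
  rw [← hδ₂] at hd2 hV2
  have hy0 : 0 < y := by linarith
  rw [← hyd] at hD hV1 hV2
  obtain ⟨E1, hE1⟩ : ∃ E1 : ℝ, E1 = 2 * ((5 * l : ℕ) : ℝ) * ((2 * (5 * l) ^ 2 : ℕ) : ℝ) -
    ((5 * l : ℕ) : ℝ) * (((5 * l : ℕ) : ℝ) + 1) / 2 + δ₁ := ⟨_, rfl⟩
  obtain ⟨E2, hE2⟩ : ∃ E2 : ℝ, E2 = 2 * ((5 * l : ℕ) : ℝ) * ((2 * (2 * (5 * l) ^ 2) : ℕ) : ℝ) -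
    ((5 * l : ℕ) : ℝ) * (((5 * l : ℕ) : ℝ) + 1) / 2 + δ₂ := ⟨_, rfl⟩
  rw [← hE1] at hV1
  rw [← hE2] at hV2
  have hcomb : y ^ (8 * s ^ 2 - 6 * s) * y ^ E2 * y ^ E1 * y ^ (5 * l * (5 * l + 1)) =
      y ^ (8 * s ^ 2) * y ^ (δ₁ + δ₂) := by
    rw [← Real.rpow_natCast y (8 * s ^ 2 - 6 * s), ← Real.rpow_natCast y (5 * l * (5 * l + 1)),
      ← Real.rpow_natCast y (8 * s ^ 2), ← Real.rpow_add hy0, ← Real.rpow_add hy0,
      ← Real.rpow_add hy0, ← Real.rpow_add hy0]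
    congr 1
    rw [Nat.cast_sub (by nlinarith), hE1, hE2]
    push_cast
    rw [hs']
    ring
  have hbr := LOC_brk l hl L ρ y (δ₁ + δ₂) hL hy1 hy (by linarith) (by linarith) hρ0 hρ1
  have hα' : ∀ u v : ℕ, (∑ j ∈ Icc 1 (5 * l), (-(-1) ^ j * t / (2 * Real.pi * j * x ^ j)) *
      ((u : ℝ) * v) ^ j) = ∑ j ∈ Icc 1 (5 * l), α j * ((u : ℝ) * v) ^ j := by
    intro u v
    rw [hα]
  simp only [hα']
  obtain ⟨Z, hZ⟩ : ∃ Z : ℝ, Z = ‖∑ u ∈ Ioc 0 Y, ∑ v ∈ Ioc 0 Y,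
    ee (∑ j ∈ Icc 1 (5 * l), α j * ((u : ℝ) * v) ^ j)‖ := ⟨_, rfl⟩
  have hZ0 : 0 ≤ Z := by rw [hZ]; exact norm_nonneg _
  rw [← hZ] at hD ⊢
  rw [← hyd]
  have hfin : Z ^ (4 * s ^ 2) ≤ y ^ (8 * s ^ 2) * Real.exp (-(3 / 100 * L)) := by
    calc Z ^ (4 * s ^ 2) ≤ _ := hD
      _ ≤ y ^ (8 * s ^ 2 - 6 * s) *
          (2 ^ (100 * (5 * l) ^ 5 * (2 * (2 * (5 * l) ^ 2)) ^ 2) * y ^ E2) *
          (2 ^ (100 * (5 * l) ^ 5 * (2 * (5 * l) ^ 2) ^ 2) * y ^ E1) *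
          ((3 * (s : ℝ)) ^ (2 * (5 * l)) * y ^ (5 * l * (5 * l + 1)) * ρ) := by
          refine mul_le_mul (mul_le_mul (mul_le_mul_of_nonneg_left hV2 (by positivity)) hV1
            (Nat.cast_nonneg _) (by positivity)) hPP
            (Finset.prod_nonneg fun j _ => Finset.sum_nonneg fun μ _ =>
              LOC_gb_nonneg _ _ (Nat.cast_nonneg _)) (by positivity)
      _ = (y ^ (8 * s ^ 2 - 6 * s) * y ^ E2 * y ^ E1 * y ^ (5 * l * (5 * l + 1))) *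
          (2 ^ (100 * (5 * l) ^ 5 * (2 * (2 * (5 * l) ^ 2)) ^ 2) *
            2 ^ (100 * (5 * l) ^ 5 * (2 * (5 * l) ^ 2) ^ 2) *
            (3 * (s : ℝ)) ^ (2 * (5 * l)) * ρ) := by ring
      _ = y ^ (8 * s ^ 2) * (2 ^ (100 * (5 * l) ^ 5 * (2 * (2 * (5 * l) ^ 2)) ^ 2) *
            2 ^ (100 * (5 * l) ^ 5 * (2 * (5 * l) ^ 2) ^ 2) *
            (3 * (250 * (l : ℝ) ^ 3)) ^ (2 * (5 * l)) * y ^ (δ₁ + δ₂) * ρ) := by
          rw [hcomb, hs']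
          ring
      _ ≤ _ := mul_le_mul_of_nonneg_left hbr (by positivity)
  have hm : ((4 * s ^ 2 : ℕ) : ℝ) = 250000 * (l : ℝ) ^ 6 := by
    push_cast
    rw [hs']
    ring
  have hm0 : 4 * s ^ 2 ≠ 0 := by positivity
  rw [← pow_le_pow_iff_left₀ hZ0 (by positivity) hm0]
  refine le_trans hfin (le_of_eq ?_)
  rw [mul_pow, ← pow_mul, ← Real.exp_nat_mul, hm]
  have e1 : 2 * (4 * s ^ 2) = 8 * s ^ 2 := by ring
  rw [e1]
  congr 2
  have : (l : ℝ) ^ 6 ≠ 0 := by positivity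
  field_simp

theorem LOC_nit_norm (t x : ℝ) : ‖nit t x‖ = 1 := by
  rw [nit, Complex.norm_exp_ofReal_mul_I]

/-- LOC. -/
theorem LOC (hVMV : VMV_stmt) (hDH : DH_stmt) (hTJ : TJ_stmt) : LOC_stmt := by
  refine ⟨10 ^ 8, by norm_num, ?_⟩
  intro l N t x hl hN ht1 ht2 hx1 hx2
  have hl' : (1 : ℝ) ≤ l := by exact_mod_cast hl
  have hN0 : (0 : ℝ) < N := by exact_mod_cast hN
  obtain ⟨L, hLd⟩ : ∃ L, L = Real.log N := ⟨_, rfl⟩
  have hNe : (N : ℝ) = Real.exp L := by rw [hLd, Real.exp_log hN0]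
  have hL00 : 0 ≤ L := by rw [hLd]; exact Real.log_nonneg (by exact_mod_cast hN)
  have hNr : ∀ a : ℝ, (N : ℝ) ^ a = Real.exp (a * L) := by
    intro a
    rw [Real.rpow_def_of_pos hN0, ← hLd, mul_comm]
  obtain ⟨Y, hY⟩ : ∃ Y : ℕ, Y = ⌊(N : ℝ) ^ (2 / 5 : ℝ)⌋₊ := ⟨_, rfl⟩
  rw [← hY]
  have hY2 : (Y : ℝ) ≤ Real.exp (2 / 5 * L) := by
    rw [hY, hNr]
    exact Nat.floor_le (Real.exp_pos _).le
  have hYY : (Y : ℝ) ^ 2 ≤ Real.exp (4 / 5 * L) := by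
    have e : Real.exp (4 / 5 * L) = Real.exp (2 / 5 * L) ^ 2 := by
      rw [← Real.exp_nat_mul]
      congr 1
      push_cast
      ring
    rw [e]
    exact pow_le_pow_left₀ (Nat.cast_nonneg _) hY2 2
  have h108 : ((10 ^ 8 : ℕ) : ℝ) = 10 ^ 8 := by norm_num
  rw [hNr, hNr, h108]
  rcases le_or_gt L (10 ^ 16 * (l : ℝ) ^ 9) with hL | hL
  · have h1 : ‖∑ u ∈ Ioc 0 Y, ∑ v ∈ Ioc 0 Y, nit t (x + (u : ℝ) * v)‖ ≤ (Y : ℝ) ^ 2 := by
      refine le_trans (norm_sum_le _ _) ?_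
      refine le_trans (Finset.sum_le_sum fun u _ => norm_sum_le _ _) ?_
      simp only [LOC_nit_norm, Finset.sum_const, Nat.card_Ioc, Nat.sub_zero, nsmul_eq_mul, mul_one]
      rw [sq]
    have h2 : 1 ≤ Real.exp (10 ^ 8 * (l : ℝ) ^ 3) * Real.exp (-(1 / (10 ^ 8 * (l : ℝ) ^ 6)) * L) := by
      rw [← Real.exp_add]
      apply Real.one_le_exp
      have h6 : (0 : ℝ) < (l : ℝ) ^ 6 := by positivity
      have : 1 / (10 ^ 8 * (l : ℝ) ^ 6) * L ≤ 10 ^ 8 * (l : ℝ) ^ 3 := by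
        rw [div_mul_eq_mul_div, div_le_iff₀ (by positivity)]
        nlinarith
      linarith
    calc _ ≤ (Y : ℝ) ^ 2 := h1
      _ ≤ Real.exp (4 / 5 * L) * 1 := by rw [mul_one]; exact hYY
      _ ≤ _ := mul_le_mul_of_nonneg_left h2 (Real.exp_pos _).le
  · have hq0 : (1 : ℝ) ≤ (l : ℝ) ^ 9 := one_le_pow₀ hl'
    have hL0 : (10 : ℝ) ^ 16 < L := by nlinarith
    have hx0 : 0 < x := lt_of_lt_of_le hN0 hx1
    have hmain := LOC_main hVMV hDH hTJ l N Y t x hl hN ht1 ht2 hx1 hx2 (by rw [← hLd]; exact hL) hY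
    rw [← hLd] at hmain
    obtain ⟨a, ha⟩ : ∃ a : ℕ → ℕ → ℂ, a = fun u v : ℕ =>
      ee (∑ j ∈ Icc 1 (5 * l), (-(-1) ^ j * t / (2 * Real.pi * j * x ^ j)) * ((u : ℝ) * v) ^ j) :=
      ⟨_, rfl⟩
    have hterm : ∀ u ∈ Ioc 0 Y, ∀ v ∈ Ioc 0 Y,
        ‖nit t (x + (u : ℝ) * v) - nit t x * a u v‖ ≤ 2 * Real.exp (-(1 / 5 * L)) := by
      intro u hu v hv
      have hu1 : (u : ℝ) ≤ Y := by exact_mod_cast (Finset.mem_Ioc.1 hu).2
      have hv1 : (v : ℝ) ≤ Y := by exact_mod_cast (Finset.mem_Ioc.1 hv).2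
      have hz : (u : ℝ) * v / x ≤ Real.exp (-(1 / 5 * L)) := by
        rw [div_le_iff₀ hx0]
        calc (u : ℝ) * v ≤ (Y : ℝ) * Y := mul_le_mul hu1 hv1 (Nat.cast_nonneg _) (Nat.cast_nonneg _)
          _ = (Y : ℝ) ^ 2 := by ring
          _ ≤ Real.exp (4 / 5 * L) := hYY
          _ = Real.exp (-(1 / 5 * L)) * Real.exp L := by
              rw [← Real.exp_add]
              congr 1
              ring
          _ ≤ Real.exp (-(1 / 5 * L)) * x := by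
              rw [← hNe]
              exact mul_le_mul_of_nonneg_left hx1 (Real.exp_pos _).le
      have hhalf : Real.exp (-(1 / 5 * L)) ≤ 1 / 2 := by
        rw [Real.exp_neg, inv_eq_one_div]
        apply one_div_le_one_div_of_le (by norm_num)
        have := Real.add_one_le_exp (1 / 5 * L)
        linarith
      have h := LOC_term (5 * l) t x ((u : ℝ) * v) hx0 (by positivity) (le_trans hz hhalf)
      rw [ha]
      refine le_trans h ?_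
      have ht2' : |t| ≤ Real.exp (l * L) := by
        rw [Real.exp_nat_mul, ← hNe]
        exact ht2
      have hz0 : 0 ≤ (u : ℝ) * v / x := by positivity
      calc |t| * (2 * ((u : ℝ) * v / x) ^ (5 * l + 1))
          ≤ Real.exp (l * L) * (2 * (Real.exp (-(1 / 5 * L))) ^ (5 * l + 1)) := by
            refine mul_le_mul ht2' ?_ (by positivity) (Real.exp_pos _).le
            exact mul_le_mul_of_nonneg_left (pow_le_pow_left₀ hz0 hz _) (by norm_num)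
        _ = 2 * Real.exp (-(1 / 5 * L)) := by
            rw [← Real.exp_nat_mul, mul_left_comm, ← Real.exp_add]
            congr 2
            push_cast
            ring
    have hsplit : ∑ u ∈ Ioc 0 Y, ∑ v ∈ Ioc 0 Y, nit t (x + (u : ℝ) * v) =
        ∑ u ∈ Ioc 0 Y, ∑ v ∈ Ioc 0 Y, (nit t (x + (u : ℝ) * v) - nit t x * a u v) +
          nit t x * ∑ u ∈ Ioc 0 Y, ∑ v ∈ Ioc 0 Y, a u v := by
      rw [Finset.mul_sum, ← Finset.sum_add_distrib]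
      refine Finset.sum_congr rfl fun u _ => ?_
      rw [Finset.mul_sum, ← Finset.sum_add_distrib]
      refine Finset.sum_congr rfl fun v _ => ?_
      ring
    have hA : ‖∑ u ∈ Ioc 0 Y, ∑ v ∈ Ioc 0 Y, (nit t (x + (u : ℝ) * v) - nit t x * a u v)‖ ≤
        (Y : ℝ) ^ 2 * (2 * Real.exp (-(1 / 5 * L))) := by
      refine le_trans (norm_sum_le _ _) ?_
      refine le_trans (Finset.sum_le_sum fun u _ => norm_sum_le _ _) ?_
      refine le_trans (Finset.sum_le_sum fun u hu => Finset.sum_le_sum fun v hv => hterm u hu v hv) ?_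
      simp only [Finset.sum_const, Nat.card_Ioc, Nat.sub_zero, nsmul_eq_mul]
      rw [sq, mul_assoc]
    have hB : ‖nit t x * ∑ u ∈ Ioc 0 Y, ∑ v ∈ Ioc 0 Y, a u v‖ ≤
        (Y : ℝ) ^ 2 * Real.exp (-(3 / 100 * L / (250000 * (l : ℝ) ^ 6))) := by
      rw [norm_mul, LOC_nit_norm, one_mul, ha]
      exact hmain
    have h6 : (1 : ℝ) ≤ (l : ℝ) ^ 6 := one_le_pow₀ hl'
    have e1 : Real.exp (-(1 / 5 * L)) ≤ Real.exp (-(1 / (10 ^ 8 * (l : ℝ) ^ 6)) * L) := by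
      apply Real.exp_le_exp.2
      have : 1 / (10 ^ 8 * (l : ℝ) ^ 6) ≤ 1 / 5 := by
        apply one_div_le_one_div_of_le (by norm_num)
        nlinarith
      nlinarith
    have e2 : Real.exp (-(3 / 100 * L / (250000 * (l : ℝ) ^ 6))) ≤
        Real.exp (-(1 / (10 ^ 8 * (l : ℝ) ^ 6)) * L) := by
      apply Real.exp_le_exp.2
      have e3 : 3 / 100 * L / (250000 * (l : ℝ) ^ 6) = 12 * (1 / (10 ^ 8 * (l : ℝ) ^ 6) * L) := by
        field_simp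
        norm_num
      have e4 : 0 ≤ 1 / (10 ^ 8 * (l : ℝ) ^ 6) * L := by positivity
      rw [e3]
      linarith
    have e5 : (3 : ℝ) ≤ Real.exp (10 ^ 8 * (l : ℝ) ^ 3) := by
      have := Real.add_one_le_exp (10 ^ 8 * (l : ℝ) ^ 3)
      have h3 : (1 : ℝ) ≤ (l : ℝ) ^ 3 := one_le_pow₀ hl'
      linarith
    rw [hsplit]
    obtain ⟨E, hE⟩ : ∃ E : ℝ, E = Real.exp (-(1 / (10 ^ 8 * (l : ℝ) ^ 6)) * L) := ⟨_, rfl⟩
    rw [← hE] at e1 e2 ⊢
    have hE0 : 0 < E := by rw [hE]; exact Real.exp_pos _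
    calc _ ≤ (Y : ℝ) ^ 2 * (2 * Real.exp (-(1 / 5 * L))) +
          (Y : ℝ) ^ 2 * Real.exp (-(3 / 100 * L / (250000 * (l : ℝ) ^ 6))) :=
          le_trans (norm_add_le _ _) (add_le_add hA hB)
      _ ≤ (Y : ℝ) ^ 2 * (2 * E) + (Y : ℝ) ^ 2 * E := by
          refine add_le_add (mul_le_mul_of_nonneg_left ?_ (by positivity))
            (mul_le_mul_of_nonneg_left e2 (by positivity))
          linarith
      _ = (Y : ℝ) ^ 2 * (3 * E) := by ring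
      _ ≤ Real.exp (4 / 5 * L) * (Real.exp (10 ^ 8 * (l : ℝ) ^ 3) * E) := by
          refine mul_le_mul hYY ?_ (by positivity) (Real.exp_pos _).le
          exact mul_le_mul_of_nonneg_right e5 hE0.le

end Pool.Agent.CH
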