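import Pool.Agent.helper17.CH.SpecQ

set_option autoImplicit false

namespace Pool.Agent.CH

open Finset

theorem QD_K3_prime {y : ℝ} {k p : ℕ} (hk : K3 y k) (hp : p.Prime) (h : p ∣ k) : y ≤ p := by
  obtain ⟨p₂, p₃, p₄, h2, h3, h4, hy, h23, h34, rfl⟩ := hk
  have h23' : (p₂ : ℝ) ≤ p₃ := by exact_mod_cast h23
  have h34' : (p₃ : ℝ) ≤ p₄ := by exact_mod_cast h34
  rcases (hp.dvd_mul).1 h with h | h
  · rcases (hp.dvd_mul).1 h with h | h
    · rw [(Nat.prime_dvd_prime_iff_eq hp h2).1 h]; exact hy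
    · rw [(Nat.prime_dvd_prime_iff_eq hp h3).1 h]; linarith
  · rw [(Nat.prime_dvd_prime_iff_eq hp h4).1 h]; linarith

theorem QD_K3_pos {y : ℝ} {k : ℕ} (hk : K3 y k) : 0 < k := by
  obtain ⟨p₂, p₃, p₄, h2, h3, h4, -, -, -, rfl⟩ := hk
  exact Nat.mul_pos (Nat.mul_pos h2.pos h3.pos) h4.pos

theorem QD_unique {z y : ℝ} {p k p' k' : ℕ} (hp : P1 z y p) (hk : K3 y k) (hp' : P1 z y p')
    (hk' : K3 y k') (h : p * k = p' * k') : p = p' ∧ k = k' := by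
  have h1 : p ∣ p' * k' := ⟨k, h.symm⟩
  have h2 : p = p' := by
    rcases (hp.1.dvd_mul).1 h1 with h3 | h3
    · exact (Nat.prime_dvd_prime_iff_eq hp.1 hp'.1).1 h3
    · have := QD_K3_prime hk' hp.1 h3
      have := hp.2.2
      linarith
  subst h2
  exact ⟨rfl, Nat.eq_of_mul_eq_mul_left hp.1.pos h⟩

theorem QD_log {m i : ℕ} (hm : 0 < m) : Nat.log 2 m = i ↔ 2 ^ i ≤ m ∧ m < 2 * 2 ^ i := by
  rw [Nat.log_eq_iff (Or.inr ⟨by norm_num, hm.ne'⟩), pow_succ, mul_comm (2 ^ i) 2]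

theorem QD_small (N : ℕ) (hN : 1 ≤ N) : 64 * N ^ 3 < 2 ^ (64 * N) := by
  have h1 : N < 2 ^ N := Nat.lt_two_pow_self
  calc 64 * N ^ 3 ≤ 64 * (2 ^ N) ^ 3 := Nat.mul_le_mul_left _ (Nat.pow_le_pow_left h1.le 3)
    _ = 2 ^ (3 * N + 6) := by rw [pow_add, ← pow_mul, mul_comm N 3]; norm_num; ring
    _ < 2 ^ (64 * N) := Nat.pow_lt_pow_right (by norm_num) (by omega)

/-- the pairs -/
def QD_T (N : ℕ) : Finset (ℕ × ℕ) := Icc 1 (256 * N ^ 3) ×ˢ Icc 1 (256 * N ^ 3)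

open Classical in
theorem QD_left (N : ℕ) (z y : ℝ) (q : ℕ) (χ : DirichletCharacter ℂ q) (g : ℕ → ℂ) :
    ∑ b ∈ BN N z y, χ b * g b =
      ∑ w ∈ QD_T N, if w.1 * w.2 ≤ 64 * N ^ 3 then aP χ z y w.1 * aK χ y w.2 * g (w.1 * w.2) else 0 := by
  rw [← Finset.sum_filter]
  have h1 : ∑ w ∈ (QD_T N).filter (fun w => w.1 * w.2 ≤ 64 * N ^ 3),
      aP χ z y w.1 * aK χ y w.2 * g (w.1 * w.2) =
      ∑ w ∈ ((QD_T N).filter (fun w => w.1 * w.2 ≤ 64 * N ^ 3)).filter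
        (fun w => P1 z y w.1 ∧ K3 y w.2), aP χ z y w.1 * aK χ y w.2 * g (w.1 * w.2) := by
    symm
    apply Finset.sum_subset (Finset.filter_subset _ _)
    intro w hw hw'
    rw [Finset.mem_filter, not_and] at hw'
    have h := hw' hw
    rw [not_and_or] at h
    rcases h with h | h
    · rw [aP, if_neg h, zero_mul, zero_mul]
    · rw [aK, if_neg h, mul_zero, zero_mul]
  rw [h1]
  symm
  apply Finset.sum_bij (fun (w : ℕ × ℕ) _ => w.1 * w.2)
  · intro w hw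
    rw [Finset.mem_filter, Finset.mem_filter] at hw
    rw [BN, Finset.mem_filter, Finset.mem_Ioc]
    exact ⟨⟨Nat.mul_pos hw.2.1.1.pos (QD_K3_pos hw.2.2), hw.1.2⟩, w.1, w.2, hw.2.1, hw.2.2, rfl⟩
  · intro w hw w' hw' h
    rw [Finset.mem_filter] at hw hw'
    have := QD_unique hw.2.1 hw.2.2 hw'.2.1 hw'.2.2 h
    exact Prod.ext this.1 this.2
  · intro b hb
    rw [BN, Finset.mem_filter, Finset.mem_Ioc] at hb
    obtain ⟨⟨hb0, hb1⟩, p, k, hp, hk, rfl⟩ := hb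
    refine ⟨(p, k), ?_, rfl⟩
    have hp0 := hp.1.pos
    have hk0 := QD_K3_pos hk
    have h2 : p ≤ p * k := Nat.le_mul_of_pos_right _ hk0
    have h3 : k ≤ p * k := Nat.le_mul_of_pos_left _ hp0
    rw [Finset.mem_filter, Finset.mem_filter, QD_T, Finset.mem_product, Finset.mem_Icc,
      Finset.mem_Icc]
    exact ⟨⟨⟨⟨hp0, by dsimp only; omega⟩, hk0, by dsimp only; omega⟩, hb1⟩, hp, hk⟩
  · intro w hw
    rw [Finset.mem_filter] at hw
    rw [aP, if_pos hw.2.1, aK, if_pos hw.2.2, Nat.cast_mul, map_mul]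

open Classical in
theorem QD_right (N : ℕ) (hN : 1 ≤ N) (a b g : ℕ → ℂ) :
    ∑ w ∈ PP N, BLb (2 ^ w.1) (2 ^ w.2) a b g =
      ∑ w ∈ QD_T N, if (Nat.log 2 w.1, Nat.log 2 w.2) ∈ PP N then a w.1 * b w.2 * g (w.1 * w.2) else 0 := by
  rw [← Finset.sum_filter]
  rw [← Finset.sum_fiberwise_of_maps_to (s := (QD_T N).filter
    (fun w => (Nat.log 2 w.1, Nat.log 2 w.2) ∈ PP N)) (t := PP N)
    (g := fun w : ℕ × ℕ => (Nat.log 2 w.1, Nat.log 2 w.2)) (fun w hw => (Finset.mem_filter.1 hw).2)]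
  refine Finset.sum_congr rfl fun w hw => ?_
  rw [BLb, ← Finset.sum_product']
  refine Finset.sum_congr ?_ fun v _ => rfl
  ext v
  rw [Finset.mem_filter, Finset.mem_filter, Finset.mem_product, Finset.mem_Ico, Finset.mem_Ico, QD_T,
    Finset.mem_product, Finset.mem_Icc, Finset.mem_Icc]
  have hPP := hw
  rw [PP, Finset.mem_filter] at hPP
  have hub := hPP.2.2
  have h1 : 1 ≤ 2 ^ w.1 := Nat.one_le_two_pow
  have h2 : 1 ≤ 2 ^ w.2 := Nat.one_le_two_pow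
  constructor
  · rintro ⟨⟨h3, h4⟩, h5, h6⟩
    have hv1 : 0 < v.1 := by omega
    have hv2 : 0 < v.2 := by omega
    have e1 : Nat.log 2 v.1 = w.1 := (QD_log hv1).2 ⟨h3, h4⟩
    have e2 : Nat.log 2 v.2 = w.2 := (QD_log hv2).2 ⟨h5, h6⟩
    have h7 : v.1 * v.2 ≤ 256 * N ^ 3 := by
      calc v.1 * v.2 ≤ (2 * 2 ^ w.1) * (2 * 2 ^ w.2) := Nat.mul_le_mul h4.le h6.le
        _ = 4 * 2 ^ (w.1 + w.2) := by rw [pow_add]; ring
        _ ≤ 4 * (64 * N ^ 3) := Nat.mul_le_mul_left _ hub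
        _ = 256 * N ^ 3 := by ring
    have h8 : v.1 ≤ v.1 * v.2 := Nat.le_mul_of_pos_right _ hv2
    have h9 : v.2 ≤ v.1 * v.2 := Nat.le_mul_of_pos_left _ hv1
    refine ⟨⟨⟨⟨hv1, by omega⟩, hv2, by omega⟩, ?_⟩, ?_⟩
    · rw [e1, e2]; exact hw
    · rw [e1, e2]
  · rintro ⟨⟨⟨⟨h3, -⟩, h4, -⟩, -⟩, h5⟩
    rw [Prod.ext_iff] at h5
    exact ⟨(QD_log h3).1 h5.1, (QD_log h4).1 h5.2⟩

/-- QD. -/
theorem QD : QD_stmt := by
  classical
  refine ⟨16, ?_⟩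
  intro N hN z y _ q χ g _ hg
  have hN1 : 1 ≤ N := by omega
  have hL := QD_left N z y q χ g
  have hR := QD_right N hN1 (aP χ z y) (aK χ y) g
  have hNr : (16 : ℝ) ≤ N := by exact_mod_cast hN
  have ha : ∀ p, ‖aP χ z y p‖ ≤ 1 := by
    intro p
    rw [aP]
    split_ifs
    · exact χ.norm_le_one _
    · simp
  have hb : ∀ p, ‖aK χ y p‖ ≤ 1 := by
    intro p
    rw [aK]
    split_ifs
    · exact χ.norm_le_one _
    · simp
  have hterm : ∀ w ∈ QD_T N,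
      ‖(if w.1 * w.2 ≤ 64 * N ^ 3 then aP χ z y w.1 * aK χ y w.2 * g (w.1 * w.2) else 0) -
        (if (Nat.log 2 w.1, Nat.log 2 w.2) ∈ PP N then aP χ z y w.1 * aK χ y w.2 * g (w.1 * w.2)
          else 0)‖ ≤ 1 / (N : ℝ) ^ 10 := by
    intro w hw
    rw [QD_T, Finset.mem_product, Finset.mem_Icc, Finset.mem_Icc] at hw
    obtain ⟨⟨h1, -⟩, h2, -⟩ := hw
    have hpos : 0 ≤ 1 / (N : ℝ) ^ 10 := by positivity
    have hF : ‖g (w.1 * w.2)‖ ≤ 1 / (N : ℝ) ^ 10 →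
        ‖aP χ z y w.1 * aK χ y w.2 * g (w.1 * w.2)‖ ≤ 1 / (N : ℝ) ^ 10 := by
      intro h
      rw [norm_mul, norm_mul]
      calc ‖aP χ z y w.1‖ * ‖aK χ y w.2‖ * ‖g (w.1 * w.2)‖ ≤ 1 * 1 * (1 / (N : ℝ) ^ 10) := by
            refine mul_le_mul (mul_le_mul (ha _) (hb _) (norm_nonneg _) (by norm_num)) h
              (norm_nonneg _) (by norm_num)
        _ = _ := by ring
    have hw1 : 1 ≤ w.1 * w.2 := Nat.mul_pos h1 h2
    by_cases hA : w.1 * w.2 ≤ 64 * N ^ 3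
    · by_cases hB : (Nat.log 2 w.1, Nat.log 2 w.2) ∈ PP N
      · rw [if_pos hA, if_pos hB, sub_self, norm_zero]
        exact hpos
      · rw [if_pos hA, if_neg hB, sub_zero]
        apply hF
        apply hg _ hw1
        left
        obtain ⟨i, hi⟩ : ∃ i, i = Nat.log 2 w.1 := ⟨_, rfl⟩
        obtain ⟨l, hl⟩ : ∃ l, l = Nat.log 2 w.2 := ⟨_, rfl⟩
        rw [← hi, ← hl] at hB
        have hi' := (QD_log h1).1 hi.symm
        have hl' := (QD_log h2).1 hl.symm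
        have hp : 2 ^ (i + l) ≤ 64 * N ^ 3 := by
          rw [pow_add]
          exact le_trans (Nat.mul_le_mul hi'.1 hl'.1) hA
        have hsm := QD_small N hN1
        have hi3 : i < 64 * N := by
          by_contra hcon
          push Not at hcon
          have h3 : 2 ^ (64 * N) ≤ 2 ^ (i + l) := Nat.pow_le_pow_right (by norm_num) (by omega)
          omega
        have hl3 : l < 64 * N := by
          by_contra hcon
          push Not at hcon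
          have h3 : 2 ^ (64 * N) ≤ 2 ^ (i + l) := Nat.pow_le_pow_right (by norm_num) (by omega)
          omega
        have hlt : 64 * 2 ^ (i + l) < N ^ 3 := by
          by_contra hcon
          push Not at hcon
          apply hB
          rw [PP, Finset.mem_filter, Finset.mem_product, Finset.mem_range, Finset.mem_range]
          exact ⟨⟨hi3, hl3⟩, hcon, hp⟩
        have h4 : w.1 * w.2 ≤ 4 * 2 ^ (i + l) := by
          calc w.1 * w.2 ≤ (2 * 2 ^ i) * (2 * 2 ^ l) := Nat.mul_le_mul hi'.2.le hl'.2.le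
            _ = 4 * 2 ^ (i + l) := by rw [pow_add]; ring
        omega
    · by_cases hB : (Nat.log 2 w.1, Nat.log 2 w.2) ∈ PP N
      · rw [if_neg hA, if_pos hB, zero_sub, norm_neg]
        apply hF
        apply hg _ hw1
        right
        push Not at hA
        have : 16 * N ^ 3 ≤ 64 * N ^ 3 := Nat.mul_le_mul_right _ (by norm_num)
        omega
      · rw [if_neg hA, if_neg hB, sub_self, norm_zero]
        exact hpos
  have hdiff : ‖∑ b ∈ BN N z y, χ b * g b - ∑ w ∈ PP N, BLb (2 ^ w.1) (2 ^ w.2) (aP χ z y) (aK χ y) g‖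
      ≤ 1 := by
    rw [hL, hR, ← Finset.sum_sub_distrib]
    refine le_trans (norm_sum_le _ _) ?_
    refine le_trans (Finset.sum_le_sum hterm) ?_
    rw [Finset.sum_const, nsmul_eq_mul, QD_T, Finset.card_product, Nat.card_Icc,
      Nat.add_sub_cancel]
    push_cast
    have hN0 : (0 : ℝ) < N := by linarith
    rw [mul_one_div, div_le_one (by positivity)]
    have h4 : (16 : ℝ) ^ 4 ≤ (N : ℝ) ^ 4 := pow_le_pow_left₀ (by norm_num) hNr 4
    calc 256 * (N : ℝ) ^ 3 * (256 * (N : ℝ) ^ 3) = 16 ^ 4 * (N : ℝ) ^ 6 := by ring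
      _ ≤ (N : ℝ) ^ 4 * (N : ℝ) ^ 6 := mul_le_mul_of_nonneg_right h4 (by positivity)
      _ = (N : ℝ) ^ 10 := by ring
  calc ‖∑ b ∈ BN N z y, χ b * g b‖
      = ‖(∑ b ∈ BN N z y, χ b * g b - ∑ w ∈ PP N, BLb (2 ^ w.1) (2 ^ w.2) (aP χ z y) (aK χ y) g) +
          ∑ w ∈ PP N, BLb (2 ^ w.1) (2 ^ w.2) (aP χ z y) (aK χ y) g‖ := by rw [sub_add_cancel]
    _ ≤ 1 + ∑ w ∈ PP N, ‖BLb (2 ^ w.1) (2 ^ w.2) (aP χ z y) (aK χ y) g‖ :=
        le_trans (norm_add_le _ _) (add_le_add hdiff (norm_sum_le _ _))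

end Pool.Agent.CH
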